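import Pool.Agent.Y19.TP.Stm3

/-!
# Project TP: infinitely many classes, algebra

Job 11057 (poster helper19).
-/

set_option autoImplicit false

namespace Pool.Agent.Y665.TP

open Polynomial Function
open Pool.Agent.Y19.TP

section general

variable {K : Type} [Field K] {d : ℕ}

theorem fam_eval (v z : K) :
    (fam K d v).eval z = v * z ^ (d - 1) * ((d : K) - ((d : K) - 1) * z) := by
  unfold fam
  simp only [eval_mul, eval_sub, eval_C, eval_X, eval_pow]

theorem fam_deriv (hd : 3 ≤ d) (v z : K) : (derivative (fam K d v)).eval z =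
    v * (d : K) * ((d : K) - 1) * z ^ (d - 2) * (1 - z) := by
  obtain ⟨e, rfl⟩ : ∃ e, d = e + 3 := ⟨d - 3, by omega⟩
  unfold fam
  rw [show e + 3 - 1 = e + 2 by omega, show e + 3 - 2 = e + 1 by omega]
  simp only [derivative_mul, derivative_C, derivative_X_pow, derivative_sub, derivative_X,
    eval_mul, eval_sub, eval_C, eval_X, eval_pow, eval_add, zero_mul, zero_add, mul_one, zero_sub,
    eval_neg, mul_neg]
  push_cast
  ring

theorem fam_natDegree [CharZero K] (hd : 3 ≤ d) {v : K} (hv : v ≠ 0) :
    (fam K d v).natDegree = d := by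
  have hd1 : (d : K) - 1 ≠ 0 := by
    have h2 : ((d - 1 : ℕ) : K) ≠ 0 := by
      rw [Nat.cast_ne_zero]; omega
    rwa [Nat.cast_sub (by omega), Nat.cast_one] at h2
  have e1 : C (d : K) - C ((d : K) - 1) * X = C (-((d : K) - 1)) * X + C (d : K) := by
    rw [C_neg]; ring
  have h3 : (C (d : K) - C ((d : K) - 1) * X).natDegree = 1 := by
    rw [e1]
    exact natDegree_linear (neg_ne_zero.2 hd1)
  have h4 : C (d : K) - C ((d : K) - 1) * X ≠ 0 := by
    intro h
    rw [h, natDegree_zero] at h3
    exact absurd h3 (by norm_num)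
  unfold fam
  rw [natDegree_mul (mul_ne_zero (C_ne_zero.2 hv) (pow_ne_zero _ X_ne_zero)) h4, h3,
    natDegree_C_mul_X_pow _ _ hv]
  omega

theorem crit [CharZero K] (hd : 3 ≤ d) {v : K} (hv : v ≠ 0) {z : K}
    (h : (derivative (fam K d v)).eval z = 0) : z = 0 ∨ z = 1 := by
  rw [fam_deriv hd] at h
  have hd0 : (d : K) ≠ 0 := by rw [Nat.cast_ne_zero]; omega
  have hd1 : (d : K) - 1 ≠ 0 := by
    have h2 : ((d - 1 : ℕ) : K) ≠ 0 := by
      rw [Nat.cast_ne_zero]; omega
    rwa [Nat.cast_sub (by omega), Nat.cast_one] at h2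
  rcases mul_eq_zero.1 h with h1 | h1
  · rcases mul_eq_zero.1 h1 with h2 | h2
    · exact absurd h2 (mul_ne_zero (mul_ne_zero hv hd0) hd1)
    · exact Or.inl (pow_eq_zero_iff (by omega) |>.1 h2)
  · exact Or.inr (sub_eq_zero.1 h1).symm

theorem crit_zero (hd : 3 ≤ d) (v : K) : (derivative (fam K d v)).eval 0 = 0 := by
  rw [fam_deriv hd, zero_pow (by omega)]
  ring

theorem crit_one (hd : 3 ≤ d) (v : K) : (derivative (fam K d v)).eval 1 = 0 := by
  rw [fam_deriv hd]
  ring

theorem eval_at_zero (hd : 3 ≤ d) (v : K) : (fam K d v).eval 0 = 0 := by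
  rw [fam_eval, zero_pow (by omega)]
  ring

theorem eval_at_one (v : K) : (fam K d v).eval 1 = v := by
  rw [fam_eval, one_pow]
  ring

theorem pcf [CharZero K] (hd : 3 ≤ d) {v : K} (hv : v ≠ 0) {n : ℕ}
    (h : (fun z : K => (fam K d v).eval z)^[n + 1] v = 0) : IsPCF (fam K d v) := by
  intro z hz
  have h0 : ∀ k, (fun w : K => (fam K d v).eval w)^[k] 0 = 0 := by
    intro k
    induction k with
    | zero => rfl
    | succ k ih => rw [Function.iterate_succ_apply', ih]; exact eval_at_zero hd v
  rcases crit hd hv hz with rfl | rfl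
  · refine (Set.finite_singleton (0 : K)).subset ?_
    rintro _ ⟨k, rfl⟩
    exact h0 k
  · have h1 : ∀ k, (fun w : K => (fam K d v).eval w)^[k + 1] 1 =
        (fun w : K => (fam K d v).eval w)^[k] v := by
      intro k
      rw [Function.iterate_succ_apply]
      congr 1
      exact eval_at_one v
    have h2 : ∀ j, (fun w : K => (fam K d v).eval w)^[j + (n + 1)] v = 0 := by
      intro j
      rw [Function.iterate_add_apply, h, h0]
    classical
    refine (((Finset.range (n + 3)).image
      (fun k => (fun w : K => (fam K d v).eval w)^[k] 1)).finite_toSet).subset ?_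
    rintro _ ⟨k, rfl⟩
    rw [Finset.mem_coe, Finset.mem_image]
    by_cases hk : k < n + 3
    · exact ⟨k, Finset.mem_range.2 hk, rfl⟩
    · refine ⟨n + 2, Finset.mem_range.2 (by omega), ?_⟩
      show (fun w : K => (fam K d v).eval w)^[n + 1 + 1] 1 = _
      rw [h1, h]
      obtain ⟨j, rfl⟩ : ∃ j, k = j + (n + 1) + 1 := ⟨k - (n + 2), by omega⟩
      show _ = (fun w : K => (fam K d v).eval w)^[j + (n + 1) + 1] 1
      rw [h1, h2]

theorem distinct [CharZero K] (hd : 3 ≤ d) {v v' : K} (hv : v ≠ 0) (hv1 : v ≠ 1)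
    (h : AffConj (fam K d v) (fam K d v')) : v = v' := by
  obtain ⟨a, b, ha, h⟩ := h
  have he : ∀ z, (fam K d v).eval (a * z + b) = a * (fam K d v').eval z + b := by
    intro z
    have := congrArg (Polynomial.eval z) h
    simpa only [eval_comp, eval_add, eval_mul, eval_C, eval_X] using this
  have hder : ∀ z, (derivative (fam K d v)).eval (a * z + b) =
      (derivative (fam K d v')).eval z := by
    intro z
    have h1 := congrArg (fun f => Polynomial.eval z (derivative f)) h
    simp only [derivative_comp, derivative_add, derivative_mul, derivative_C, derivative_X,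
      eval_comp, eval_add, eval_mul, eval_C, eval_X, zero_mul, zero_add, add_zero, mul_one] at h1
    exact mul_left_cancel₀ ha h1
  have hb : b = 0 ∨ b = 1 := by
    apply crit hd hv
    have := hder 0
    rw [mul_zero, zero_add] at this
    rw [this, crit_zero hd]
  have hab : a + b = 0 ∨ a + b = 1 := by
    apply crit hd hv
    have := hder 1
    rw [mul_one] at this
    rw [this, crit_one hd]
  rcases hb with rfl | rfl
  · rcases hab with h1 | h1
    · rw [add_zero] at h1
      exact absurd h1 ha
    · rw [add_zero] at h1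
      subst h1
      have := he 1
      rw [mul_one, add_zero, add_zero, one_mul, eval_at_one, eval_at_one] at this
      exact this
  · have ha1 : a = -1 := by
      rcases hab with h1 | h1
      · linear_combination h1
      · exfalso
        apply ha
        linear_combination h1
    subst ha1
    have := he 0
    rw [mul_zero, zero_add, eval_at_one, eval_at_zero hd, mul_zero, zero_add] at this
    exact absurd this hv1

end general

theorem t_INFA : INFB → INFA := by
  intro hB p _ d hd hp
  have hφ : Function.Injective (algebraMap ℚ_[p] (PadicAlgCl p)) :=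
    (algebraMap ℚ_[p] (PadicAlgCl p)).injective
  have hchar : CharZero (PadicAlgCl p) := charZero_of_injective_algebraMap hφ
  refine ⟨{v : ℚ_[p] | 1 < ‖v‖ ∧ ∃ n : ℕ, 1 ≤ n ∧
    (fun z : ℚ_[p] => (fam ℚ_[p] d v).eval z)^[n + 1] v = 0 ∧
    ∀ i : ℕ, i ≤ n → (fun z : ℚ_[p] => (fam ℚ_[p] d v).eval z)^[i] v ≠ 0}, ?_, ?_, ?_⟩
  · choose! v hv using fun n : ℕ => hB p d hd hp (n + 1) (by omega)
    refine Set.infinite_of_injective_forall_mem (f := v) ?_ ?_
    · have key : ∀ n m, n < m → v n ≠ v m := by
        intro n m hnm h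
        have h1 := (hv n).2.1
        rw [h] at h1
        exact (hv m).2.2 (n + 1 + 1) (by omega) h1
      intro n m h
      rcases lt_trichotomy n m with h1 | h1 | h1
      · exact absurd h (key n m h1)
      · exact h1
      · exact absurd h.symm (key m n h1)
    · intro n
      exact ⟨(hv n).1, n + 1, by omega, (hv n).2⟩
  · rintro v ⟨h1, n, _, h2, _⟩
    have hv0 : algebraMap ℚ_[p] (PadicAlgCl p) v ≠ 0 := by
      intro h
      rw [map_eq_zero_iff _ hφ] at h
      rw [h, norm_zero] at h1
      linarith
    refine ⟨fam_natDegree hd hv0, pcf (n := n) hd hv0 ?_⟩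
    have hs : Function.Semiconj (algebraMap ℚ_[p] (PadicAlgCl p))
        (fun z : ℚ_[p] => (fam ℚ_[p] d v).eval z)
        (fun z => (fam (PadicAlgCl p) d (algebraMap ℚ_[p] (PadicAlgCl p) v)).eval z) := by
      intro z
      show algebraMap ℚ_[p] (PadicAlgCl p) ((fam ℚ_[p] d v).eval z) =
        (fam (PadicAlgCl p) d (algebraMap ℚ_[p] (PadicAlgCl p) v)).eval
          (algebraMap ℚ_[p] (PadicAlgCl p) z)
      rw [fam_eval, fam_eval]
      simp only [map_mul, map_pow, map_sub, map_natCast, map_one]
    rw [← hs.iterate_right (n + 1) v, h2, map_zero]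
  · rintro v ⟨h1, _⟩ v' _ h
    refine hφ (distinct hd ?_ ?_ h)
    · intro h2
      rw [map_eq_zero_iff _ hφ] at h2
      rw [h2, norm_zero] at h1
      linarith
    · intro h2
      have : v = 1 := hφ (by rw [h2, map_one])
      rw [this, norm_one] at h1
      exact lt_irrefl _ h1

end Pool.Agent.Y665.TP
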